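import Pool.Agent.W564.MM.Defs

/-!
# Project MM: effect of a small shift of the initial point
-/

set_option autoImplicit false

namespace Pool.Agent.W410.MM.SHIFT

open MeasureTheory Filter Topology Finset Pool.Agent.W564.MM

/-- the displacement -/
noncomputable def Dq (a s : ℝ) (X : ℕ → T1) : ℕ → ℝ
  | 0 => 0
  | 1 => s
  | (i + 2) => 2 * Dq a s X (i + 1) - Dq a s X i +
      a * (sn (X (i + 1) + (Dq a s X (i + 1) : T1)) - sn (X (i + 1)))

/-- the constants -/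
noncomputable def Mq (T₀ : ℝ) : ℕ → ℝ
  | 0 => T₀
  | k + 1 => (2 * Real.pi + 3) * Mq T₀ k + 2 * Real.pi ^ 2 * (Mq T₀ k) ^ 2

theorem Mq_pos {T₀ : ℝ} (h : 0 < T₀) (k : ℕ) : 0 < Mq T₀ k := by
  induction k with
  | zero => exact h
  | succ k ih =>
    have := Real.pi_pos
    rw [Mq]
    positivity

theorem Mq_mono {T₀ : ℝ} (h : 0 < T₀) : Monotone (Mq T₀) := by
  refine monotone_nat_of_le_succ fun k => ?_
  have h1 := Mq_pos h k
  have h2 := Real.pi_pos
  have h3 : 0 ≤ 2 * Real.pi ^ 2 * (Mq T₀ k) ^ 2 := by positivity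
  have h4 : 0 ≤ (2 * Real.pi + 2) * Mq T₀ k := by positivity
  rw [Mq]
  linarith

theorem shift_eq (a s : ℝ) (p : T1 × T1) : ∀ i,
    xx a i (p.1 + (s : T1), p.2) = xx a i p + (Dq a s (fun j => xx a j p) i : T1) := by
  have key : ∀ i, xx a i (p.1 + (s : T1), p.2) = xx a i p + (Dq a s (fun j => xx a j p) i : T1) ∧
      xx a (i + 1) (p.1 + (s : T1), p.2) =
        xx a (i + 1) p + (Dq a s (fun j => xx a j p) (i + 1) : T1) := by
    intro i
    induction i with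
    | zero =>
      refine ⟨?_, ?_⟩
      · simp [xx, Dq]
      · simp [xx, Dq]
    | succ i ih =>
      refine ⟨ih.2, ?_⟩
      obtain ⟨h1, h2⟩ := ih
      have e1 : xx a (i + 1 + 1) (p.1 + (s : T1), p.2) =
          2 • xx a (i + 1) (p.1 + (s : T1), p.2) - xx a i (p.1 + (s : T1), p.2) +
            ((a * sn (xx a (i + 1) (p.1 + (s : T1), p.2)) : ℝ) : T1) := rfl
      have e2 : xx a (i + 1 + 1) p = 2 • xx a (i + 1) p - xx a i p +
            ((a * sn (xx a (i + 1) p) : ℝ) : T1) := rfl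
      have e3 : Dq a s (fun j => xx a j p) (i + 1 + 1) =
          2 * Dq a s (fun j => xx a j p) (i + 1) - Dq a s (fun j => xx a j p) i +
          a * (sn (xx a (i + 1) p + (Dq a s (fun j => xx a j p) (i + 1) : T1)) -
            sn (xx a (i + 1) p)) := rfl
      rw [e1, e2, e3, h1, h2]
      obtain ⟨u, hu⟩ : ∃ u, u = Dq a s (fun j => xx a j p) (i + 1) := ⟨_, rfl⟩
      obtain ⟨v, hv⟩ : ∃ v, v = Dq a s (fun j => xx a j p) i := ⟨_, rfl⟩
      rw [← hu, ← hv]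
      obtain ⟨t, ht⟩ : ∃ t, t = sn (xx a (i + 1) p + (u : T1)) := ⟨_, rfl⟩
      rw [← ht]
      have e4 : ((2 * u - v + a * (t - sn (xx a (i + 1) p)) : ℝ) : T1) =
          2 • (u : T1) - (v : T1) + ((a * t : ℝ) : T1) -
            ((a * sn (xx a (i + 1) p) : ℝ) : T1) := by
        have e5 : 2 * u - v + a * (t - sn (xx a (i + 1) p)) =
            u + u - v + a * t - a * sn (xx a (i + 1) p) := by ring
        rw [e5, AddCircle.coe_sub, AddCircle.coe_add, AddCircle.coe_sub, AddCircle.coe_add,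
          two_nsmul]
      rw [e4, nsmul_add]
      abel
  exact fun i => (key i).1

theorem cs_le (x : T1) : |cs x| ≤ 1 := by
  unfold cs
  refine (Complex.abs_re_le_norm _).trans ?_
  rw [fourier_apply]
  exact (Circle.norm_coe _).le

theorem est (hB : ∀ (x : T1) (d : ℝ), |sn (x + (d : T1)) - sn x - 2 * Real.pi * cs x * d| ≤
    2 * Real.pi ^ 2 * d ^ 2) (r : ℕ) (T₀ : ℝ) (hT : 0 < T₀) (a : ℝ) (ha : 1 ≤ |a|)
    (τ : ℝ) (hτ : |τ| ≤ T₀) (X : ℕ → T1) (D : ℕ → ℝ) (hD : D = Dq a (τ / a ^ (r - 1)) X) :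
    ∀ k, k + 1 ≤ r → |a ^ (r - k) * D k| ≤ Mq T₀ k ∧ |a ^ (r - (k + 1)) * D (k + 1)| ≤ Mq T₀ k ∧
      |a ^ (r - (k + 1)) * D (k + 1) -
        τ * ∏ i ∈ Finset.Ico 1 (k + 1), (2 * Real.pi * cs (X i))| ≤ Mq T₀ k / |a| := by
  have ha0 : a ≠ 0 := by
    intro h
    rw [h, abs_zero] at ha
    linarith
  have hapos : 0 < |a| := by linarith
  intro k
  induction k with
  | zero =>
    intro _
    have h1 : D 0 = 0 := by rw [hD]; rfl
    have h2 : D (0 + 1) = τ / a ^ (r - 1) := by rw [hD]; rfl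
    have h3 : a ^ (r - (0 + 1)) * D (0 + 1) = τ := by
      rw [h2, zero_add, mul_div_cancel₀ _ (pow_ne_zero _ ha0)]
    rw [h3, h1, mul_zero, abs_zero]
    have h4 : Mq T₀ 0 = T₀ := rfl
    rw [h4]
    refine ⟨hT.le, hτ, ?_⟩
    simp only [zero_add, Finset.Ico_self, Finset.prod_empty, mul_one, sub_self, abs_zero]
    positivity
  | succ k ih =>
    intro hk
    obtain ⟨h1, h2, h3⟩ := ih (by omega)
    obtain ⟨q, hq⟩ : ∃ q, r = q + (k + 2) := ⟨r - (k + 2), by omega⟩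
    have q1 : r - k = q + 2 := by omega
    have q2 : r - (k + 1) = q + 1 := by omega
    have q3 : r - (k + 1 + 1) = q := by omega
    rw [q1] at h1
    rw [q2] at h2 h3
    rw [q2, q3]
    have hM0 := Mq_pos hT k
    have hmono : Mq T₀ k ≤ Mq T₀ (k + 1) := Mq_mono hT (Nat.le_succ k)
    refine ⟨h2.trans hmono, ?_⟩
    obtain ⟨E, hE⟩ : ∃ E, E = a ^ (q + 1) * D (k + 1) := ⟨_, rfl⟩
    obtain ⟨F, hF⟩ : ∃ F, F = a ^ (q + 2) * D k := ⟨_, rfl⟩
    obtain ⟨c, hc⟩ : ∃ c, c = cs (X (k + 1)) := ⟨_, rfl⟩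
    obtain ⟨R, hR⟩ : ∃ R, R = sn (X (k + 1) + (D (k + 1) : T1)) - sn (X (k + 1)) -
      2 * Real.pi * c * D (k + 1) := ⟨_, rfl⟩
    have hRle : |R| ≤ 2 * Real.pi ^ 2 * D (k + 1) ^ 2 := by
      rw [hR, hc]
      exact hB _ _
    have hcle : |c| ≤ 1 := by rw [hc]; exact cs_le _
    rw [← hE] at h2 h3
    rw [← hF] at h1
    have hD2 : D (k + 1 + 1) = 2 * D (k + 1) - D k +
        a * (sn (X (k + 1) + (D (k + 1) : T1)) - sn (X (k + 1))) := by
      rw [hD]; rfl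
    have e1 : a ^ q * D (k + 1) = E / a := by
      rw [hE, pow_succ]; field_simp
    have e2 : a ^ q * D k = F / a ^ 2 := by
      rw [hF, pow_add]; field_simp
    have e3 : a ^ q * D (k + 1 + 1) - 2 * Real.pi * c * E =
        2 * (E / a) - F / a ^ 2 + a ^ (q + 1) * R := by
      rw [hD2, ← e1, ← e2, hR, hE]
      ring
    have b1 : |2 * (E / a)| ≤ 2 * (Mq T₀ k / |a|) := by
      rw [abs_mul, abs_div, abs_two]
      gcongr
    have b2 : |F / a ^ 2| ≤ Mq T₀ k / |a| := by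
      rw [abs_div, abs_pow]
      have h4 : |a| ≤ |a| ^ 2 := by nlinarith
      calc |F| / |a| ^ 2 ≤ Mq T₀ k / |a| ^ 2 := by gcongr
        _ ≤ Mq T₀ k / |a| := by gcongr
    have b3 : |a ^ (q + 1) * R| ≤ 2 * Real.pi ^ 2 * (Mq T₀ k) ^ 2 / |a| := by
      rw [abs_mul, abs_pow, le_div_iff₀ hapos]
      have h4 : |a| ≤ |a| ^ (q + 1) := by
        calc |a| = |a| ^ 1 := (pow_one _).symm
          _ ≤ |a| ^ (q + 1) := pow_le_pow_right₀ ha (by omega)
      have h5 : 0 ≤ |a| ^ (q + 1) * |R| := by positivity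
      have h6 : E ^ 2 = |a| ^ (q + 1) * |a| ^ (q + 1) * D (k + 1) ^ 2 := by
        rw [hE, mul_pow, ← sq_abs (a ^ (q + 1)), abs_pow]
        ring
      have h7 : E ^ 2 ≤ (Mq T₀ k) ^ 2 := by
        rw [← sq_abs E]
        exact pow_le_pow_left₀ (abs_nonneg _) h2 2
      calc |a| ^ (q + 1) * |R| * |a| ≤ |a| ^ (q + 1) * |R| * |a| ^ (q + 1) :=
            mul_le_mul_of_nonneg_left h4 h5
        _ = |a| ^ (q + 1) * |a| ^ (q + 1) * |R| := by ring
        _ ≤ |a| ^ (q + 1) * |a| ^ (q + 1) * (2 * Real.pi ^ 2 * D (k + 1) ^ 2) := by gcongr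
        _ = 2 * Real.pi ^ 2 * E ^ 2 := by rw [h6]; ring
        _ ≤ 2 * Real.pi ^ 2 * (Mq T₀ k) ^ 2 := by gcongr
    have hmain : |a ^ q * D (k + 1 + 1) - 2 * Real.pi * c * E| ≤
        (3 * Mq T₀ k + 2 * Real.pi ^ 2 * (Mq T₀ k) ^ 2) / |a| := by
      rw [e3]
      calc |2 * (E / a) - F / a ^ 2 + a ^ (q + 1) * R| ≤
            |2 * (E / a) - F / a ^ 2| + |a ^ (q + 1) * R| := abs_add_le _ _
        _ ≤ (|2 * (E / a)| + |F / a ^ 2|) + |a ^ (q + 1) * R| := by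
            gcongr
            exact abs_sub _ _
        _ ≤ (2 * (Mq T₀ k / |a|) + Mq T₀ k / |a|) + 2 * Real.pi ^ 2 * (Mq T₀ k) ^ 2 / |a| := by
            gcongr
        _ = _ := by ring
    have hpi := Real.pi_pos
    have hMn : Mq T₀ (k + 1) = (2 * Real.pi + 3) * Mq T₀ k + 2 * Real.pi ^ 2 * (Mq T₀ k) ^ 2 := rfl
    have hcE : |2 * Real.pi * c * E| ≤ 2 * Real.pi * Mq T₀ k := by
      rw [abs_mul, abs_mul, abs_of_pos (by positivity : 0 < 2 * Real.pi)]
      calc 2 * Real.pi * |c| * |E| ≤ 2 * Real.pi * 1 * Mq T₀ k := by gcongr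
        _ = _ := by ring
    refine ⟨?_, ?_⟩
    · have h4 : (3 * Mq T₀ k + 2 * Real.pi ^ 2 * (Mq T₀ k) ^ 2) / |a| ≤
          3 * Mq T₀ k + 2 * Real.pi ^ 2 * (Mq T₀ k) ^ 2 :=
        div_le_self (by positivity) ha
      have h5 : a ^ q * D (k + 1 + 1) = (a ^ q * D (k + 1 + 1) - 2 * Real.pi * c * E) +
          2 * Real.pi * c * E := by ring
      rw [h5]
      refine (abs_add_le _ _).trans ?_
      rw [hMn]
      linarith
    · have h4 : a ^ q * D (k + 1 + 1) -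
          τ * ∏ i ∈ Finset.Ico 1 (k + 1 + 1), (2 * Real.pi * cs (X i)) =
          (a ^ q * D (k + 1 + 1) - 2 * Real.pi * c * E) +
          2 * Real.pi * c * (E - τ * ∏ i ∈ Finset.Ico 1 (k + 1), (2 * Real.pi * cs (X i))) := by
        rw [Finset.prod_Ico_succ_top (by omega), ← hc]
        ring
      rw [h4]
      refine (abs_add_le _ _).trans ?_
      have h5 : |2 * Real.pi * c *
          (E - τ * ∏ i ∈ Finset.Ico 1 (k + 1), (2 * Real.pi * cs (X i)))| ≤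
          2 * Real.pi * (Mq T₀ k / |a|) := by
        rw [abs_mul, abs_mul, abs_of_pos (by positivity : 0 < 2 * Real.pi)]
        calc _ ≤ 2 * Real.pi * 1 * (Mq T₀ k / |a|) := by gcongr
          _ = _ := by ring
      calc _ ≤ (3 * Mq T₀ k + 2 * Real.pi ^ 2 * (Mq T₀ k) ^ 2) / |a| +
            2 * Real.pi * (Mq T₀ k / |a|) := add_le_add hmain h5
        _ = Mq T₀ (k + 1) / |a| := by rw [hMn]; ring

theorem shift (h : S_BAS) : S_SHIFT := by
  intro r hr T₀ hT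
  refine ⟨Mq T₀ r, fun a ha τ hτ p => ⟨Dq a (τ / a ^ (r - 1)) (fun j => xx a j p),
    shift_eq a _ p, ?_, ?_⟩⟩
  · intro i hi
    have hapos : 0 < |a| := by linarith
    rcases Nat.eq_zero_or_pos i with h0 | h0
    · subst h0
      have h1 : Dq a (τ / a ^ (r - 1)) (fun j => xx a j p) 0 = 0 := rfl
      rw [h1, abs_zero]
      exact div_nonneg (Mq_pos hT r).le hapos.le
    · obtain ⟨k, rfl⟩ : ∃ k, i = k + 1 := ⟨i - 1, by omega⟩
      have h1 := (est h.2.2.1 r T₀ hT a ha τ hτ (fun j => xx a j p) _ rfl k (by omega)).2.1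
      rw [le_div_iff₀ hapos]
      rw [abs_mul, abs_pow] at h1
      have h4 : |a| ≤ |a| ^ (r - (k + 1)) := by
        calc |a| = |a| ^ 1 := (pow_one _).symm
          _ ≤ |a| ^ (r - (k + 1)) := pow_le_pow_right₀ ha (by omega)
      calc _ ≤ |Dq a (τ / a ^ (r - 1)) (fun j => xx a j p) (k + 1)| * |a| ^ (r - (k + 1)) :=
            mul_le_mul_of_nonneg_left h4 (abs_nonneg _)
        _ = |a| ^ (r - (k + 1)) * |Dq a (τ / a ^ (r - 1)) (fun j => xx a j p) (k + 1)| :=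
            mul_comm _ _
        _ ≤ Mq T₀ k := h1
        _ ≤ Mq T₀ r := Mq_mono hT (by omega)
  · obtain ⟨k, rfl⟩ : ∃ k, r = k + 1 := ⟨r - 1, by omega⟩
    have h1 := (est h.2.2.1 (k + 1) T₀ hT a ha τ hτ (fun j => xx a j p) _ rfl k le_rfl).2.2
    rw [Nat.sub_self, pow_zero, one_mul] at h1
    refine h1.trans ?_
    have hapos : 0 < |a| := by linarith
    gcongr
    exact Mq_mono hT (by omega)

end Pool.Agent.W410.MM.SHIFT
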